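import Pool.Agent.Q304.Fin2

/-!
# Embedding `P(ω)/fin` under Lipschitz and smooth reductions

One map `x ↦ A x` from subsets of `ℕ` to `D₂(Σ⁰₁)` subsets of `ℝ` works simultaneously for
Lipschitz reductions, for `C^∞` reductions, for reductions which are both, and for all continuous
reductions.
-/

open Set
open scoped ContDiff

set_option autoImplicit false

namespace Pool.Agent.Results.MP_b9d480_lc.LipSmoothEmbed

/-- `A` is `D₂(Σ⁰₁)`: the intersection of an open and a closed subset of `ℝ`. -/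
def IsD2 (A : Set ℝ) : Prop := ∃ U F : Set ℝ, IsOpen U ∧ IsClosed F ∧ A = U ∩ F

/-- `A ≤_𝓕 B`: there is `f ∈ 𝓕` with `A = f⁻¹[B]`. -/
def Red (𝓕 : Set (ℝ → ℝ)) (A B : Set ℝ) : Prop := ∃ f ∈ 𝓕, A = f ⁻¹' B

/-- all Lipschitz functions -/
def Lip : Set (ℝ → ℝ) := {f | ∃ K : NNReal, LipschitzWith K f}

/-- all infinitely differentiable functions -/
def Smooth : Set (ℝ → ℝ) := {f | ContDiff ℝ ∞ f}

/-- all continuous functions -/
def Cont : Set (ℝ → ℝ) := {f | Continuous f}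

/-- `P(ω)/fin` embeds into `≤_𝓕` on `D₂(Σ⁰₁)` sets. -/
def Embeds (𝓕 : Set (ℝ → ℝ)) : Prop :=
  ∃ A : Set ℕ → Set ℝ, (∀ x, IsD2 (A x)) ∧ ∀ x y : Set ℕ, (x \ y).Finite ↔ Red 𝓕 (A x) (A y)

/-- `P(ω)/fin` embeds into `≤_Lip` and into `≤_{C^∞}` on `D₂(Σ⁰₁)` sets; moreover a single map
works for every class of functions between `Lip ∩ C^∞` and the continuous functions. -/
theorem result :
    Embeds Lip ∧ Embeds Smooth ∧
    ∃ A : Set ℕ → Set ℝ, (∀ x, IsD2 (A x)) ∧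
      ∀ 𝓕 : Set (ℝ → ℝ), Lip ∩ Smooth ⊆ 𝓕 → 𝓕 ⊆ Cont →
        ∀ x y : Set ℕ, (x \ y).Finite ↔ Red 𝓕 (A x) (A y) := by
  obtain ⟨A, hA, h1, h2⟩ := Pool.Q304.PF.main
  have key : ∀ 𝓕 : Set (ℝ → ℝ), Lip ∩ Smooth ⊆ 𝓕 → 𝓕 ⊆ Cont →
      ∀ x y : Set ℕ, (x \ y).Finite ↔ Red 𝓕 (A x) (A y) := by
    intro 𝓕 hs hc x y
    constructor
    · intro h
      obtain ⟨f, hf1, hf2, hf3⟩ := h1 x y h
      refine ⟨f, hs ⟨?_, ?_⟩, hf3⟩
      · simpa [Lip] using hf2
      · simpa [Smooth] using hf1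
    · rintro ⟨f, hf, hfe⟩
      exact h2 x y f (by simpa [Cont] using hc hf) hfe
  refine ⟨⟨A, hA, key Lip inter_subset_left ?_⟩, ⟨A, hA, key Smooth inter_subset_right ?_⟩,
    A, hA, key⟩
  · intro f hf
    obtain ⟨K, hK⟩ : ∃ K : NNReal, LipschitzWith K f := by simpa [Lip] using hf
    simpa [Cont] using hK.continuous
  · intro f hf
    have h : ContDiff ℝ ∞ f := by simpa [Smooth] using hf
    simpa [Cont] using h.continuous

end Pool.Agent.Results.MP_b9d480_lc.LipSmoothEmbed
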